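import Pool.Agent.H46.AB.Main

/-! # AlgebraicBlock: the orbit closure and dependent coefficients -/

set_option autoImplicit false

open Module Filter Topology NumberField
open Pool.Agent.H89.CSD (im)

namespace H46.AB

variable {d : ℕ} {K : Type} [Field K] [NumberField K]

theorem low_closure (g g' : Matrix (Fin d) (Fin d) ℝ) (hg : g.det ≠ 0)
    (hg' : g'.det ≠ 0) (hcl : g' ∈ closure (H46.AF.Orb g))
    (ε : ℝ) (hε : 0 < ε) (hl : H46.AF.LowZ g ε) : ∃ ν : ℝ, 0 < ν ∧ H46.AF.LowZ g' ν := by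
  classical
  have hFC : FirstCountableTopology (Matrix (Fin d) (Fin d) ℝ) :=
    inferInstanceAs (FirstCountableTopology (Fin d → Fin d → ℝ))
  obtain ⟨H0, hH0, hlim0⟩ := mem_closure_iff_seq_limit.1 hcl
  have hdet0 : Tendsto (fun n => |(H0 n).det|) atTop (𝓝 |g'.det|) := by
    have : Continuous fun M : Matrix (Fin d) (Fin d) ℝ => |M.det| :=
      (Continuous.matrix_det continuous_id).abs
    exact (this.tendsto g').comp hlim0
  have hpos : 0 < |g'.det| := abs_pos.2 hg'
  have hposg : 0 < |g.det| := abs_pos.2 hg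
  have hev := hdet0.eventually (lt_mem_nhds (show |g'.det| / 2 < |g'.det| by linarith))
  refine ⟨ε * (|g'.det| / 2) / |g.det|, by positivity, ?_⟩
  intro x hx
  have hc : Continuous fun M : Matrix (Fin d) (Fin d) ℝ =>
      |∏ i : Fin d, ∑ j : Fin d, M i j * (x j : ℝ)| := by fun_prop
  refine ge_of_tendsto ((hc.tendsto g').comp hlim0) ?_
  filter_upwards [hev] with n hn
  obtain ⟨a, γ, hγ, he⟩ := hH0 n
  refine le_trans ?_ (H46.AF.low_trans g (H0 n) hg a γ hγ he ε hε hl x hx)
  gcongr

theorem main (d : ℕ) (hd : 3 ≤ d) (g g' : Matrix (Fin d) (Fin d) ℝ) (hg : g.det ≠ 0)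
    (hg' : g'.det ≠ 0) (hcl : g' ∈ closure (H46.AF.Orb g))
    (K : Type) [Field K] [NumberField K] (w : Fin d → K) (hK : finrank ℚ K ≤ d)
    (T : Set (K →+* ℂ))
    (hT : ∀ L : Subfield K, NumberField.IsTotallyReal L →
      (∀ σ τ : K →+* ℂ, (∀ x ∈ L, σ x = τ x) → σ ∈ T → τ ∈ T) → L = ⊤)
    (I : Set (Fin d)) (hI : I.Nonempty)
    (hblock : Submodule.span ℂ ((fun i j => (g' i j : ℂ)) '' I) =
      Submodule.span ℂ ((fun (σ : K →+* ℂ) j => σ (w j)) '' T))
    (ε : ℝ) (hε : 0 < ε) (hl : H46.AF.LowZ g ε) : H46.AF.Integral g := by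
  classical
  by_cases hw : LinearIndependent ℚ w
  · have hfin : finrank ℚ K = d := by
      refine le_antisymm hK ?_
      have := hw.fintype_card_le_finrank
      simpa using this
    have hspan : ⊤ ≤ Submodule.span ℚ (Set.range w) := by
      rw [hw.span_eq_top_of_card_eq_finrank' (by simp [hfin])]
    let b : Basis (Fin d) ℚ K := Basis.mk hw hspan
    have hb : ∀ j, b j = w j := fun j => by simp [b]
    have hFC : FirstCountableTopology (Matrix (Fin d) (Fin d) ℝ) :=
      inferInstanceAs (FirstCountableTopology (Fin d → Fin d → ℝ))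
    obtain ⟨H0, hH0, hlim0⟩ := mem_closure_iff_seq_limit.1 hcl
    choose a γ hγ he using hH0
    let U : ℕ → (Matrix (Fin d) (Fin d) ℤ)ˣ := fun n =>
      ((Matrix.isUnit_iff_isUnit_det (γ n)).2 (hγ n)).unit
    refine block hd b g g' hg hg' a U ?_ T hT I hI ?_ ε hε hl
    · refine hlim0.congr (fun n => ?_)
      rw [he n]
      rfl
    · rw [hblock]
      simp only [hb]
  · exfalso
    obtain ⟨ν, hν, hl'⟩ := low_closure g g' hg hg' hcl ε hε hl
    obtain ⟨y, hy, h0⟩ := H46.AF.exists_int_dep w hw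
    obtain ⟨i, hi⟩ := hI
    refine H46.AF.row_dep g' i y hy ?_ ν hν hl'
    have h1 : (fun j => (g' i j : ℂ)) ∈
        Submodule.span ℂ ((fun (σ : K →+* ℂ) j => σ (w j)) '' T) := by
      rw [← hblock]
      exact Submodule.subset_span ⟨i, hi, rfl⟩
    have h2 : ∀ v ∈ Submodule.span ℂ ((fun (σ : K →+* ℂ) (j : Fin d) => σ (w j)) '' T),
        ∑ j, v j * (y j : ℂ) = 0 := by
      intro v hv
      induction hv using Submodule.span_induction with
      | mem x hx =>
        obtain ⟨σ, -, rfl⟩ := hx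
        have h3 := congrArg σ h0
        rw [map_zero, map_sum] at h3
        rw [← h3]
        refine Finset.sum_congr rfl (fun j _ => ?_)
        rw [map_mul, map_intCast, mul_comm]
      | zero => simp
      | add x z _ _ hx hz =>
        simp only [Pi.add_apply, add_mul, Finset.sum_add_distrib]
        rw [hx, hz, add_zero]
      | smul c x _ hx =>
        simp only [Pi.smul_apply, smul_eq_mul, mul_assoc]
        rw [← Finset.mul_sum, hx, mul_zero]
    have h3 := h2 _ h1
    have h4 : ((∑ j, g' i j * (y j : ℝ) : ℝ) : ℂ) = 0 := by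
      push_cast
      exact h3
    exact_mod_cast h4

end H46.AB
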