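import Mathlib

/-! # Linear algebra for AlgebraicBlock -/

set_option autoImplicit false

open Module Polynomial

namespace H46.AB

variable {d : ℕ}

/-- an eigenvector of a matrix is an eigenvector of a polynomial in the matrix -/
theorem vecMul_aeval (M : Matrix (Fin d) (Fin d) ℂ) (v : Fin d → ℂ) (z : ℂ)
    (h : Matrix.vecMul v M = z • v) (q : ℝ[X]) :
    Matrix.vecMul v (aeval M q) = (aeval z q : ℂ) • v := by
  induction q using Polynomial.induction_on with
  | C r =>
    rw [aeval_C, aeval_C, Algebra.algebraMap_eq_smul_one, Matrix.vecMul_smul, Matrix.vecMul_one]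
    rw [Algebra.algebraMap_eq_smul_one, smul_assoc, one_smul]
  | add p q hp hq => rw [map_add, map_add, Matrix.vecMul_add, hp, hq, add_smul]
  | monomial n r ih =>
    have h2 : (C r * X ^ (n + 1) : ℝ[X]) = (C r * X ^ n) * X := by rw [pow_succ, mul_assoc]
    rw [h2]
    generalize (C r * X ^ n : ℝ[X]) = t at ih
    rw [map_mul, map_mul, aeval_X, aeval_X, ← Matrix.vecMul_vecMul, ih, Matrix.smul_vecMul, h,
      smul_smul]

/-- real rows, complex vector -/
def cv (v : Fin d → ℝ) : Fin d → ℂ := fun j => (v j : ℂ)

/-- a complex vector is in the complex span of real vectors iff its real and imaginary parts are in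
the real span -/
theorem mem_span_iff {ι : Type*} (r : ι → Fin d → ℝ) (I : Set ι) (v : Fin d → ℂ) :
    v ∈ Submodule.span ℂ ((fun i j => (r i j : ℂ)) '' I) ↔
      (fun j => (v j).re) ∈ Submodule.span ℝ (r '' I) ∧
        (fun j => (v j).im) ∈ Submodule.span ℝ (r '' I) := by
  constructor
  · intro h
    induction h using Submodule.span_induction with
    | mem x hx =>
      obtain ⟨i, hi, rfl⟩ := hx
      refine ⟨?_, ?_⟩
      · simpa using Submodule.subset_span (Set.mem_image_of_mem r hi)
      · have : (fun j : Fin d => ((r i j : ℂ)).im) = 0 := by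
          funext j
          simp
        rw [this]
        exact Submodule.zero_mem _
    | zero =>
      refine ⟨?_, ?_⟩ <;>
      · convert Submodule.zero_mem (Submodule.span ℝ (r '' I)) using 1
        funext j
        simp
    | add x y _ _ hx hy =>
      refine ⟨?_, ?_⟩
      · convert Submodule.add_mem _ hx.1 hy.1 using 1
        funext j
        simp
      · convert Submodule.add_mem _ hx.2 hy.2 using 1
        funext j
        simp
    | smul a x _ hx =>
      refine ⟨?_, ?_⟩
      · convert Submodule.sub_mem _ (Submodule.smul_mem _ a.re hx.1)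
          (Submodule.smul_mem _ a.im hx.2) using 1
        funext j
        simp
      · convert Submodule.add_mem _ (Submodule.smul_mem _ a.re hx.2)
          (Submodule.smul_mem _ a.im hx.1) using 1
        funext j
        simp
  · rintro ⟨h1, h2⟩
    have hcast : ∀ u : Fin d → ℝ, u ∈ Submodule.span ℝ (r '' I) →
        (fun j => (u j : ℂ)) ∈ Submodule.span ℂ ((fun i j => (r i j : ℂ)) '' I) := by
      intro u hu
      induction hu using Submodule.span_induction with
      | mem x hx =>
        obtain ⟨i, hi, rfl⟩ := hx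
        exact Submodule.subset_span ⟨i, hi, rfl⟩
      | zero =>
        convert Submodule.zero_mem _ using 1
        funext j
        simp
      | add x y _ _ hx hy =>
        convert Submodule.add_mem _ hx hy using 1
        funext j
        simp
      | smul a x _ hx =>
        convert Submodule.smul_mem _ (a : ℂ) hx using 1
        funext j
        simp
    have h3 : v = (fun j => (((v j).re : ℝ) : ℂ)) + Complex.I • (fun j => (((v j).im : ℝ) : ℂ)) := by
      funext j
      rw [Pi.add_apply, Pi.smul_apply, smul_eq_mul, mul_comm]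
      exact (Complex.re_add_im (v j)).symm
    rw [h3]
    exact Submodule.add_mem _ (hcast _ h1) (Submodule.smul_mem _ _ (hcast _ h2))

/-- the kernel of a real matrix on complex row vectors -/
theorem vecMul_complex (M : Matrix (Fin d) (Fin d) ℝ) (v : Fin d → ℂ) :
    Matrix.vecMul v (M.map (Complex.ofReal)) = 0 ↔
      Matrix.vecMul (fun j => (v j).re) M = 0 ∧ Matrix.vecMul (fun j => (v j).im) M = 0 := by
  have hre : ∀ j, (Matrix.vecMul v (M.map (Complex.ofReal)) j).re =
      Matrix.vecMul (fun j => (v j).re) M j := by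
    intro j
    simp [Matrix.vecMul, dotProduct]
  have him : ∀ j, (Matrix.vecMul v (M.map (Complex.ofReal)) j).im =
      Matrix.vecMul (fun j => (v j).im) M j := by
    intro j
    simp [Matrix.vecMul, dotProduct]
  constructor
  · intro h
    constructor
    · funext j
      rw [← hre, h]
      simp
    · funext j
      rw [← him, h]
      simp
  · rintro ⟨h1, h2⟩
    funext j
    apply Complex.ext
    · rw [hre, h1]
      simp
    · rw [him, h2]
      simp

theorem map_aeval (M : Matrix (Fin d) (Fin d) ℝ) (q : ℝ[X]) :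
    (aeval M q).map (Complex.ofReal) = aeval (M.map Complex.ofReal) q := by
  have h1 : ∀ N : Matrix (Fin d) (Fin d) ℝ, N.map Complex.ofReal =
      (Complex.ofRealAm.mapMatrix : Matrix (Fin d) (Fin d) ℝ →ₐ[ℝ] Matrix (Fin d) (Fin d) ℂ) N :=
    fun N => rfl
  rw [h1, h1, aeval_algHom_apply]

variable {K : Type*} [Field K] [NumberField K]

/-- the vectors of conjugates of a basis are linearly independent -/
theorem indep_conj (b : Basis (Fin d) ℚ K) :
    LinearIndependent ℂ (fun (σ : K →+* ℂ) (j : Fin d) => σ (b j)) := by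
  have h1 : LinearIndependent ℂ (fun (σ : K →* ℂ) => (σ : K → ℂ)) := linearIndependent_monoidHom K ℂ
  have h2 : LinearIndependent ℂ (fun (σ : K →+* ℂ) => ((σ : K →* ℂ) : K → ℂ)) :=
    h1.comp (fun σ : K →+* ℂ => (σ : K →* ℂ)) (fun σ τ h => by
      ext x
      exact DFunLike.congr_fun h x)
  rw [Fintype.linearIndependent_iff] at h2 ⊢
  intro a ha
  apply h2 a
  funext x
  rw [Finset.sum_apply, Pi.zero_apply]
  simp only [Pi.smul_apply, smul_eq_mul]
  have h3 : ∀ j, ∑ σ : K →+* ℂ, a σ * σ (b j) = 0 := by
    intro j
    have h4 := congrFun ha j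
    rw [Finset.sum_apply] at h4
    simpa using h4
  have h5 : ∀ σ : K →+* ℂ, σ x = ∑ j, ((b.repr x j : ℚ) : ℂ) * σ (b j) := by
    intro σ
    conv_lhs => rw [← b.sum_repr x]
    rw [map_sum]
    refine Finset.sum_congr rfl (fun j _ => ?_)
    rw [Rat.smul_def, map_mul, map_ratCast]
  calc ∑ σ : K →+* ℂ, a σ * ((σ : K →* ℂ) : K → ℂ) x
      = ∑ σ : K →+* ℂ, ∑ j, ((b.repr x j : ℚ) : ℂ) * (a σ * σ (b j)) := by
        refine Finset.sum_congr rfl (fun σ _ => ?_)
        change a σ * σ x = _
        rw [h5 σ, Finset.mul_sum]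
        refine Finset.sum_congr rfl (fun j _ => ?_)
        ring
    _ = ∑ j, ((b.repr x j : ℚ) : ℂ) * ∑ σ : K →+* ℂ, a σ * σ (b j) := by
        rw [Finset.sum_comm]
        refine Finset.sum_congr rfl (fun j _ => ?_)
        rw [Finset.mul_sum]
    _ = 0 := by
        refine Finset.sum_eq_zero (fun j _ => ?_)
        rw [h3 j, mul_zero]

/-- a rational matrix commutes with `σ` on the row of conjugates -/
theorem vecMul_leftMul (b : Basis (Fin d) ℚ K) (x : K) (σ : K →+* ℂ) :
    Matrix.vecMul (fun j => σ (b j)) ((Algebra.leftMulMatrix b x).map (Rat.cast : ℚ → ℂ)) =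
      σ x • (fun j => σ (b j)) := by
  funext j
  have h1 : x * b j = ∑ i, (Algebra.leftMulMatrix b x i j) • b i := by
    conv_lhs => rw [← b.sum_repr (x * b j)]
    refine Finset.sum_congr rfl (fun i _ => ?_)
    rw [Algebra.leftMulMatrix_eq_repr_mul]
  rw [Pi.smul_apply, smul_eq_mul, ← map_mul, h1, map_sum]
  simp only [Matrix.vecMul, dotProduct, Matrix.map_apply]
  refine Finset.sum_congr rfl (fun i _ => ?_)
  rw [Rat.smul_def, map_mul, map_ratCast, mul_comm]

end H46.AB
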