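import Pool.Agent.H66.FR.Minimal
import Pool.Agent.H46.Integral
import Pool.Agent.H46.AB.Lin
import Pool.Agent.H46.AF.Fin

/-! # AlgebraicBlock: translation to the block theorem of H66 -/

set_option autoImplicit false

open Module Polynomial Filter Topology NumberField
open Pool.Agent.H66.FR (qm rm field_rigidity_min injective_of_natDegree qm_aeval)
open Pool.Agent.H89.CSD (im)

namespace H46.AB

variable {d : ℕ} {K : Type} [Field K] [NumberField K]

/-- a primitive element which acts by an integral matrix -/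
theorem exists_prim (b : Basis (Fin d) ℚ K) :
    ∃ (β : K) (B : Matrix (Fin d) (Fin d) ℤ), qm B = Algebra.leftMulMatrix b β ∧
      Function.Injective (fun σ : K →+* ℂ => σ β) := by
  classical
  obtain ⟨α, hα⟩ := Field.exists_primitive_element ℚ K
  have hinj : Function.Injective (fun σ : K →+* ℂ => σ α) :=
    injective_of_natDegree α ((Field.primitive_element_iff_minpoly_natDegree_eq ℚ α).1 hα)
  let M : Matrix (Fin d) (Fin d) ℚ := Algebra.leftMulMatrix b α
  let P : Fin d × Fin d → ℕ := fun p => (M p.1 p.2).den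
  let N : ℕ := ∏ p, P p
  have hN : N ≠ 0 := Finset.prod_ne_zero_iff.2 fun p _ => (M p.1 p.2).den_ne_zero
  have hdiv : ∀ i j, ∃ m : ℤ, (m : ℚ) = (N : ℚ) * M i j := by
    intro i j
    have h1 : N = P (i, j) * ∏ k ∈ Finset.univ.erase (i, j), P k :=
      (Finset.mul_prod_erase _ _ (Finset.mem_univ (i, j))).symm
    refine ⟨(∏ k ∈ Finset.univ.erase (i, j), P k : ℕ) * (M i j).num, ?_⟩
    rw [h1]
    push_cast
    have h2 : ((P (i, j) : ℕ) : ℚ) * M i j = (M i j).num := by
      rw [mul_comm]; exact Rat.mul_den_eq_num (M i j)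
    rw [mul_right_comm, h2, mul_comm]
  choose B hB using hdiv
  refine ⟨(N : ℚ) • α, Matrix.of B, ?_, ?_⟩
  · rw [map_smul]
    ext i j
    rw [Matrix.smul_apply, smul_eq_mul]
    exact hB i j
  · intro σ τ h
    apply hinj
    simp only [Rat.smul_def, map_mul, map_ratCast] at h
    exact mul_left_cancel₀ (by exact_mod_cast hN) h

theorem vecMul_poly (b : Basis (Fin d) ℚ K) (x : K) (A : Matrix (Fin d) (Fin d) ℤ)
    (hA : qm A = Algebra.leftMulMatrix b x) (r : ℝ[X]) (σ : K →+* ℂ) :
    Matrix.vecMul (fun j => σ (b j)) ((aeval (rm A) r).map Complex.ofReal) =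
      (aeval (σ x) r : ℂ) • (fun j => σ (b j)) := by
  rw [map_aeval]
  have h1 : (rm A).map Complex.ofReal =
      (Algebra.leftMulMatrix b x).map (Rat.cast : ℚ → ℂ) := by
    rw [← hA]
    ext i j
    simp
  rw [h1]
  exact vecMul_aeval _ _ _ (vecMul_leftMul b x σ) r

theorem block (hd : 3 ≤ d) (b : Basis (Fin d) ℚ K) (g g' : Matrix (Fin d) (Fin d) ℝ)
    (hg : g.det ≠ 0) (hg' : g'.det ≠ 0) (D : ℕ → Fin d → ℝ)
    (U : ℕ → (Matrix (Fin d) (Fin d) ℤ)ˣ)
    (hlim : Tendsto (fun n => Matrix.diagonal (D n) * g * im (U n : Matrix (Fin d) (Fin d) ℤ)) atTop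
      (𝓝 g'))
    (T : Set (K →+* ℂ))
    (hT : ∀ L : Subfield K, NumberField.IsTotallyReal L →
      (∀ σ τ : K →+* ℂ, (∀ x ∈ L, σ x = τ x) → σ ∈ T → τ ∈ T) → L = ⊤)
    (I : Set (Fin d)) (hI : I.Nonempty)
    (hblock : Submodule.span ℂ ((fun i j => (g' i j : ℂ)) '' I) =
      Submodule.span ℂ ((fun (σ : K →+* ℂ) j => σ (b j)) '' T))
    (ε : ℝ) (hε : 0 < ε) (hlow : ∀ x : Fin d → ℤ, x ≠ 0 → ε ≤ |∏ i, ∑ j, g i j * (x j : ℝ)|) :
    H46.AF.Integral g := by
  classical
  obtain ⟨β, B, hB, hβ⟩ := exists_prim b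
  have hfin : finrank ℚ K = d := by
    rw [finrank_eq_card_basis b, Fintype.card_fin]
  have hmemS : ∀ v : Fin d → ℂ, v ∈ Submodule.span ℂ ((fun i j => (g' i j : ℂ)) '' I) ↔ _ :=
    mem_span_iff g' I
  have hindep := indep_conj b
  have hσ : ∀ σ : K →+* ℂ, (fun j => σ (b j)) ∈
      Submodule.span ℂ ((fun i j => (g' i j : ℂ)) '' I) ↔ σ ∈ T := by
    intro σ
    rw [hblock]
    constructor
    · intro h
      by_contra hσ
      exact hindep.notMem_span_image hσ h
    · intro h
      exact Submodule.subset_span ⟨σ, h, rfl⟩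
  have hTc : ∀ σ : K →+* ℂ, σ ∈ T → ComplexEmbedding.conjugate σ ∈ T := by
    intro σ h
    rw [← hσ, hmemS] at h ⊢
    refine ⟨?_, ?_⟩
    · convert h.1 using 1
      funext j
      simp [ComplexEmbedding.conjugate_coe_eq]
    · convert Submodule.neg_mem _ h.2 using 1
      funext j
      simp [ComplexEmbedding.conjugate_coe_eq]
  have hbot : ¬ ∀ σ : K →+* ℂ, σ ∈ T := by
    intro h2
    have h0 : NumberField.IsTotallyReal (⊥ : IntermediateField ℚ K).toSubfield := by
      rw [NumberField.isTotallyReal_iff_le_maximalRealSubfield]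
      intro x hx
      obtain ⟨r, rfl⟩ := IntermediateField.mem_bot.1 hx
      rw [NumberField.mem_maximalRealSubfield_iff]
      intro φ
      simp
    have h3 := hT (⊥ : IntermediateField ℚ K).toSubfield h0 (fun σ τ _ _ => h2 τ)
    have h4 : (⊥ : IntermediateField ℚ K) = ⊤ := by
      apply IntermediateField.toSubfield_injective
      rw [h3]
      rfl
    have h5 : finrank ℚ K = 1 := by
      rw [← IntermediateField.finrank_top' (F := ℚ) (E := K), ← h4, IntermediateField.finrank_bot]
    omega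
  have hI1 : I ≠ Set.univ := by
    intro h
    have h1 : ∀ v : Fin d → ℝ, v ∈ Submodule.span ℝ (g' '' I) := by
      intro v
      have h2 : v = Matrix.vecMul (Matrix.vecMul v g'⁻¹) g' := by
        rw [Matrix.vecMul_vecMul, Matrix.nonsing_inv_mul _ (isUnit_iff_ne_zero.2 hg'),
          Matrix.vecMul_one]
      rw [h2, Matrix.vecMul_eq_sum]
      refine Submodule.sum_mem _ (fun i _ => Submodule.smul_mem _ _ (Submodule.subset_span ?_))
      exact ⟨i, by rw [h]; trivial, rfl⟩
    apply hbot
    intro σ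
    rw [← hσ, hmemS]
    exact ⟨h1 _, h1 _⟩
  have hT0 : ∃ σ : K →+* ℂ, σ ∈ T := by
    by_contra hcon
    push Not at hcon
    obtain ⟨i, hi⟩ := hI
    have h1 : T = ∅ := Set.eq_empty_of_forall_notMem hcon
    have h2 : (fun j => (g' i j : ℂ)) ∈ Submodule.span ℂ ((fun i j => (g' i j : ℂ)) '' I) :=
      Submodule.subset_span ⟨i, hi, rfl⟩
    rw [hblock, h1, Set.image_empty, Submodule.span_empty, Submodule.mem_bot] at h2
    apply hg'
    apply Matrix.det_eq_zero_of_row_eq_zero i
    intro j
    have h3 := congrFun h2 j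
    simpa using h3
  -- the real polynomial
  let q : ℝ[X] := ∏ τ ∈ T.toFinset,
    (X ^ 2 - C (2 * (τ β).re) * X + C (Complex.normSq (τ β)))
  have hq : ∀ σ : K →+* ℂ, (aeval (σ β) q : ℂ) = 0 ↔ σ ∈ T := by
    intro σ
    have h1 : ∀ τ : K →+* ℂ, (aeval (σ β) (X ^ 2 - C (2 * (τ β).re) * X +
        C (Complex.normSq (τ β)) : ℝ[X]) : ℂ) =
        (σ β - τ β) * (σ β - (starRingEnd ℂ) (τ β)) := by
      intro τ
      have h2 : ((2 * (τ β).re : ℝ) : ℂ) = τ β + (starRingEnd ℂ) (τ β) := by
        rw [Complex.add_conj]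
      have h3 : ((Complex.normSq (τ β) : ℝ) : ℂ) = (τ β) * (starRingEnd ℂ) (τ β) := by
        rw [Complex.mul_conj]
      rw [map_add, map_sub, map_mul, map_pow, aeval_X, aeval_C, aeval_C]
      rw [show (algebraMap ℝ ℂ) (2 * (τ β).re) = ((2 * (τ β).re : ℝ) : ℂ) from rfl,
        show (algebraMap ℝ ℂ) (Complex.normSq (τ β)) = ((Complex.normSq (τ β) : ℝ) : ℂ) from rfl,
        h2, h3]
      ring
    simp only [q]
    rw [map_prod, Finset.prod_eq_zero_iff]
    constructor
    · rintro ⟨τ, hτ, h⟩
      rw [h1, mul_eq_zero, sub_eq_zero, sub_eq_zero] at h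
      rw [Set.mem_toFinset] at hτ
      rcases h with h | h
      · rw [hβ h]
        exact hτ
      · have h4 : σ = ComplexEmbedding.conjugate τ := hβ (by
          simpa [ComplexEmbedding.conjugate_coe_eq] using h)
        rw [h4]
        exact hTc τ hτ
    · intro h
      exact ⟨σ, Set.mem_toFinset.2 h, by rw [h1, sub_self, zero_mul]⟩
  have hqm : ∀ p : ℤ[X], qm (aeval B p) = Algebra.leftMulMatrix b
      (aeval β (p.map (Int.castRingHom ℚ))) := by
    intro p
    rw [qm_aeval, hB, aeval_algHom_apply]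
  have hinjΨ : Function.Injective (Algebra.leftMulMatrix b) := Algebra.leftMulMatrix_injective b
  have hsp : ⊤ ≤ Submodule.span ℂ (Set.range (fun (σ : K →+* ℂ) (j : Fin d) => σ (b j))) := by
    rw [hindep.span_eq_top_of_card_eq_finrank' (by
      rw [Embeddings.card K ℂ, hfin]
      simp)]
  have hqiff : ∀ v : Fin d → ℝ, v ∈ Submodule.span ℝ (g' '' I) ↔
      Matrix.vecMul v (aeval (rm B) q) = 0 := by
    intro v
    have h1 : v ∈ Submodule.span ℝ (g' '' I) ↔
        (fun j => (v j : ℂ)) ∈ Submodule.span ℂ ((fun i j => (g' i j : ℂ)) '' I) := by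
      rw [hmemS]
      constructor
      · intro h
        refine ⟨by simpa using h, ?_⟩
        have : (fun j : Fin d => ((v j : ℂ)).im) = 0 := by
          funext j
          simp
        rw [this]
        exact Submodule.zero_mem _
      · intro h
        simpa using h.1
    have h2 : Matrix.vecMul v (aeval (rm B) q) = 0 ↔
        Matrix.vecMul (fun j => (v j : ℂ)) ((aeval (rm B) q).map Complex.ofReal) = 0 := by
      rw [vecMul_complex]
      constructor
      · intro h
        refine ⟨by simpa using h, ?_⟩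
        have : (fun j : Fin d => ((v j : ℂ)).im) = 0 := by
          funext j
          simp
        rw [this, Matrix.zero_vecMul]
      · intro h
        simpa using h.1
    rw [h1, h2]
    obtain ⟨a, ha⟩ := (Submodule.mem_span_range_iff_exists_fun ℂ).1
      (hsp (Submodule.mem_top (x := fun j => (v j : ℂ))))
    rw [← ha]
    have h3 : Matrix.vecMul (∑ σ : K →+* ℂ, a σ • fun j => σ (b j))
        ((aeval (rm B) q).map Complex.ofReal) =
        ∑ σ : K →+* ℂ, (a σ * aeval (σ β) q) • (fun j => σ (b j)) := by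
      rw [Matrix.sum_vecMul]
      refine Finset.sum_congr rfl (fun σ _ => ?_)
      rw [Matrix.smul_vecMul, vecMul_poly b β B hB q σ, smul_smul]
    rw [h3]
    constructor
    · intro h
      refine Finset.sum_eq_zero (fun σ _ => ?_)
      by_cases hσT : σ ∈ T
      · rw [(hq σ).2 hσT, mul_zero, zero_smul]
      · have h4 : a σ = 0 := by
          rw [hblock] at h
          obtain ⟨l, hl, hlx⟩ := (Finsupp.mem_span_image_iff_linearCombination ℂ).1 h
          rw [Finsupp.linearCombination_apply, Finsupp.sum_fintype] at hlx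
          swap
          · intro τ
            exact zero_smul _ _
          have h5 : ∑ τ : K →+* ℂ, (l τ - a τ) • (fun j => τ (b j)) = 0 := by
            simp only [sub_smul, Finset.sum_sub_distrib]
            rw [hlx, sub_self]
          have h6 := (Fintype.linearIndependent_iff.1 hindep) _ h5 σ
          have h7 := (Finsupp.mem_supported' ℂ l).1 hl σ hσT
          rw [h7, zero_sub, neg_eq_zero] at h6
          exact h6
        rw [h4, zero_mul, zero_smul]
    · intro h
      rw [Fintype.linearIndependent_iff] at hindep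
      have h4 := hindep _ h
      refine Submodule.sum_mem _ (fun σ _ => ?_)
      rcases mul_eq_zero.1 (h4 σ) with h5 | h5
      · rw [h5, zero_smul]
        exact Submodule.zero_mem _
      · exact Submodule.smul_mem _ _ ((hσ σ).2 ((hq σ).1 h5))
  -- the cutting polynomials
  have hcrit : ∀ (p : ℤ[X]) (q' : ℝ[X]),
      (∀ v : Fin d → ℝ, v ∈ Submodule.span ℝ (g' '' I) ↔
        Matrix.vecMul v (aeval (rm (aeval B p)) q') = 0) →
      ∀ σ τ : K →+* ℂ, σ (aeval β (p.map (Int.castRingHom ℚ))) =
        τ (aeval β (p.map (Int.castRingHom ℚ))) → σ ∈ T → τ ∈ T := by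
    intro p q' h σ τ hστ
    have h0 : ∀ σ : K →+* ℂ, σ ∈ T ↔
        (aeval (σ (aeval β (p.map (Int.castRingHom ℚ)))) q' : ℂ) = 0 := by
      intro σ
      rw [← hσ, hmemS, h, h, ← vecMul_complex, vecMul_poly b _ _ (hqm p) q' σ, smul_eq_zero]
      constructor
      · rintro (h1 | h1)
        · exact h1
        · exact absurd h1 (hindep.ne_zero σ)
      · exact Or.inl
    rw [h0, h0, hστ]
    exact id
  have hdeg : ∀ γ : K, (∀ σ τ : K →+* ℂ, σ γ = τ γ → σ ∈ T → τ ∈ T) →
      (∀ σ : K →+* ℂ, (starRingEnd ℂ) (σ γ) = σ γ) → (minpoly ℚ γ).natDegree = d := by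
    intro γ h hr
    have h0 : NumberField.IsTotallyReal (IntermediateField.adjoin ℚ {γ}).toSubfield := by
      rw [NumberField.isTotallyReal_iff_le_maximalRealSubfield]
      have h1 : IntermediateField.adjoin ℚ {γ} ≤
          (Subfield.toIntermediateField (NumberField.maximalRealSubfield K) (by
            intro r
            rw [NumberField.mem_maximalRealSubfield_iff]
            intro φ
            simp)) := by
        rw [IntermediateField.adjoin_simple_le_iff]
        change γ ∈ NumberField.maximalRealSubfield K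
        rw [NumberField.mem_maximalRealSubfield_iff]
        exact hr
      exact h1
    have h1 := hT (IntermediateField.adjoin ℚ {γ}).toSubfield h0 (by
      intro σ τ hag
      exact h σ τ (hag γ (IntermediateField.mem_adjoin_simple_self ℚ γ)))
    have h2 : IntermediateField.adjoin ℚ {γ} = ⊤ := by
      apply IntermediateField.toSubfield_injective
      rw [h1]
      rfl
    rw [← IntermediateField.adjoin.finrank (Algebra.IsIntegral.isIntegral γ), h2,
      IntermediateField.finrank_top', hfin]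
  have h3deg : ∀ γ : K, (∀ σ τ : K →+* ℂ, σ γ = τ γ → σ ∈ T → τ ∈ T) →
      3 ≤ (minpoly ℚ γ).natDegree := by
    intro γ h
    by_cases hr : ∀ σ : K →+* ℂ, (starRingEnd ℂ) (σ γ) = σ γ
    · rw [hdeg γ h hr]
      exact hd
    · push Not at hr
      obtain ⟨φ, hφ⟩ := hr
      by_contra hlt
      push Not at hlt
      have hne : minpoly ℚ γ ≠ 0 := minpoly.ne_zero (Algebra.IsIntegral.isIntegral γ)
      have hroot : ∀ σ : K →+* ℂ, σ γ ∈ ((minpoly ℚ γ).aroots ℂ).toFinset := by
        intro σ
        rw [Multiset.mem_toFinset, mem_aroots]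
        refine ⟨hne, ?_⟩
        have h1 : (aeval (σ γ) (minpoly ℚ γ) : ℂ) = σ (aeval γ (minpoly ℚ γ)) :=
          aeval_algHom_apply σ.toRatAlgHom γ (minpoly ℚ γ)
        rw [h1, minpoly.aeval, map_zero]
      have hcard : ((minpoly ℚ γ).aroots ℂ).toFinset.card ≤ 2 := by
        refine (Multiset.toFinset_card_le _).trans ((card_roots' _).trans ?_)
        rw [natDegree_map]
        omega
      have htwo : ∀ σ : K →+* ℂ, σ γ = φ γ ∨ σ γ = (starRingEnd ℂ) (φ γ) := by
        intro σ
        by_contra hcon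
        push Not at hcon
        have h1 : ({σ γ, φ γ, (starRingEnd ℂ) (φ γ)} : Finset ℂ) ⊆
            ((minpoly ℚ γ).aroots ℂ).toFinset := by
          intro z hz
          simp only [Finset.mem_insert, Finset.mem_singleton] at hz
          rcases hz with rfl | rfl | rfl
          · exact hroot σ
          · exact hroot φ
          · exact hroot (ComplexEmbedding.conjugate φ)
        have h2 := Finset.card_le_card h1
        rw [Finset.card_insert_of_notMem (by simp [hcon.1, hcon.2]),
          Finset.card_pair (fun h => hφ h.symm)] at h2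
        omega
      obtain ⟨σ₀, hσ₀⟩ := hT0
      apply hbot
      intro τ
      have hcases : σ₀ γ = τ γ ∨ (ComplexEmbedding.conjugate σ₀) γ = τ γ := by
        rw [ComplexEmbedding.conjugate_coe_eq]
        rcases htwo σ₀ with h1 | h1 <;> rcases htwo τ with h2 | h2
        · exact Or.inl (h1.trans h2.symm)
        · exact Or.inr (by rw [h1, h2])
        · exact Or.inr (by rw [h1, h2, Complex.conj_conj])
        · exact Or.inl (h1.trans h2.symm)
      rcases hcases with h1 | h1
      · exact h σ₀ τ h1 hσ₀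
      · exact h _ τ h1 (hTc σ₀ hσ₀)
  have hirr : Irreducible (minpoly ℚ (qm B)) := by
    rw [hB, minpoly.algHom_eq _ hinjΨ]
    exact minpoly.irreducible (Algebra.IsIntegral.isIntegral β)
  obtain ⟨p, q', V, μ, hpq, -, hV, hμ⟩ := field_rigidity_min g hg B hirr D U g' hg' hlim
    I.toFinset (by simpa using hI) (by
      intro h
      apply hI1
      rw [← Set.coe_toFinset I, h, Finset.coe_univ]) q
    (by
      rw [Set.coe_toFinset]
      exact hqiff)
    (by
      intro p q' h
      rw [Set.coe_toFinset] at h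
      rw [hqm, minpoly.algHom_eq _ hinjΨ]
      exact h3deg _ (hcrit p q' h)) ε hε hlow
  rw [Set.coe_toFinset] at hpq
  refine Pool.Agent.H46.integral_of_eigen d g hg _ μ (hμ ?_) hV
  rw [hqm, minpoly.algHom_eq _ hinjΨ]
  refine hdeg _ (hcrit p q' hpq) (fun σ => ?_)
  -- all conjugates of the cutting element are real
  set γ : K := aeval β (p.map (Int.castRingHom ℚ)) with hγ
  set A : Matrix (Fin d) (Fin d) ℤ := aeval B p with hA
  set c : Matrix (Fin d) (Fin d) ℤ → Matrix (Fin d) (Fin d) ℂ :=
    fun M => M.map (Int.cast : ℤ → ℂ) with hc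
  have hcm : ∀ M N : Matrix (Fin d) (Fin d) ℤ, c (M * N) = c M * c N := by
    intro M N
    exact (Int.castRingHom ℂ).mapMatrix.map_mul M N
  have hc1 : c 1 = 1 := (Int.castRingHom ℂ).mapMatrix.map_one
  set G : Matrix (Fin d) (Fin d) ℂ := g.map Complex.ofReal with hG
  have hGdet : G.det ≠ 0 := by
    have h1 : G.det = Complex.ofReal g.det := (RingHom.map_det Complex.ofRealHom g).symm
    rw [h1]
    exact_mod_cast hg
  have hrow : G * c (V * A * ((V⁻¹ : (Matrix (Fin d) (Fin d) ℤ)ˣ) : Matrix (Fin d) (Fin d) ℤ)) =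
      Matrix.diagonal (fun i => (μ i : ℂ)) * G := by
    ext i j
    have h1 := congrFun (hV i) j
    rw [Matrix.diagonal_mul, Matrix.mul_apply]
    simp only [Matrix.vecMul, dotProduct, Pi.smul_apply, smul_eq_mul, im, Matrix.map_apply] at h1
    simp only [hG, hc, Matrix.map_apply]
    have h2 := congrArg Complex.ofReal h1
    rw [Complex.ofReal_sum, Complex.ofReal_mul] at h2
    refine Eq.trans (Finset.sum_congr rfl (fun x _ => ?_)) h2
    rw [Complex.ofReal_mul, Complex.ofReal_intCast]
  have heig : Matrix.vecMul (fun j => σ (b j)) (c A) = σ γ • (fun j => σ (b j)) := by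
    have h1 : c A = (Algebra.leftMulMatrix b γ).map (Rat.cast : ℚ → ℂ) := by
      rw [hγ, ← hqm p]
      ext i j
      change ((A i j : ℤ) : ℂ) = (((aeval B p) i j : ℤ) : ℚ)
      rw [Rat.cast_intCast]
    rw [h1]
    exact vecMul_leftMul b γ σ
  set v : Fin d → ℂ := Matrix.vecMul (fun j => σ (b j))
    (c ((V⁻¹ : (Matrix (Fin d) (Fin d) ℤ)ˣ) : Matrix (Fin d) (Fin d) ℤ)) with hv
  have hVV : c ((V⁻¹ : (Matrix (Fin d) (Fin d) ℤ)ˣ) : Matrix (Fin d) (Fin d) ℤ) * c V = 1 := by
    rw [← hcm, Units.inv_mul, hc1]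
  have hv1 : Matrix.vecMul v (c (V * A * ((V⁻¹ : (Matrix (Fin d) (Fin d) ℤ)ˣ) :
      Matrix (Fin d) (Fin d) ℤ))) = σ γ • v := by
    rw [hv, Matrix.vecMul_vecMul, hcm, hcm, ← Matrix.mul_assoc, ← Matrix.mul_assoc, hVV,
      Matrix.one_mul, ← Matrix.vecMul_vecMul, heig, Matrix.smul_vecMul]
  have hv0 : v ≠ 0 := by
    intro h
    apply hindep.ne_zero σ
    have h1 : Matrix.vecMul v (c V) = fun j => σ (b j) := by
      rw [hv, Matrix.vecMul_vecMul, hVV, Matrix.vecMul_one]
    rw [h, Matrix.zero_vecMul] at h1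
    exact h1.symm
  set u : Fin d → ℂ := Matrix.vecMul v G⁻¹ with hu
  have hvu : v = Matrix.vecMul u G := by
    rw [hu, Matrix.vecMul_vecMul, Matrix.nonsing_inv_mul _ (isUnit_iff_ne_zero.2 hGdet),
      Matrix.vecMul_one]
  have hdiag : Matrix.vecMul u (Matrix.diagonal (fun i => (μ i : ℂ))) = σ γ • u := by
    have h1 : Matrix.vecMul (Matrix.vecMul u (Matrix.diagonal (fun i => (μ i : ℂ)))) G =
        Matrix.vecMul (σ γ • u) G := by
      rw [Matrix.vecMul_vecMul, ← hrow, ← Matrix.vecMul_vecMul, ← hvu, hv1, Matrix.smul_vecMul,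
        ← hvu]
    have h2 := congrArg (fun w => Matrix.vecMul w G⁻¹) h1
    have h3 : ∀ w : Fin d → ℂ, Matrix.vecMul (Matrix.vecMul w G) G⁻¹ = w := by
      intro w
      rw [Matrix.vecMul_vecMul, Matrix.mul_nonsing_inv _ (isUnit_iff_ne_zero.2 hGdet),
        Matrix.vecMul_one]
    simp only [h3] at h2
    exact h2
  obtain ⟨i, hi⟩ : ∃ i, u i ≠ 0 := by
    by_contra hcon
    push Not at hcon
    apply hv0
    rw [hvu, show u = 0 from funext hcon, Matrix.zero_vecMul]
  have h1 := congrFun hdiag i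
  rw [Matrix.vecMul_diagonal, Pi.smul_apply, smul_eq_mul, mul_comm] at h1
  rw [← mul_right_cancel₀ hi h1, Complex.conj_ofReal]

end H46.AB
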