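import Pool.Agent.H46.AB.Fin

/-! # AlgebraicBlock: one factor with coefficients in a number field -/

set_option autoImplicit false

open Module

namespace H46.AB

variable {d : ℕ}

theorem single_embedding {K : Type} [Field K] [NumberField K] (σ : K →+* ℂ) (L : Subfield K)
    (h : ∀ τ : K →+* ℂ, (∀ x ∈ L, σ x = τ x) → τ = σ) : L = ⊤ := by
  letI : Algebra L ℂ := (σ.comp L.subtype).toAlgebra
  let f : K →ₐ[L] ℂ := { σ with commutes' := fun r => rfl }
  have hFD : FiniteDimensional L K := by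
    have : IsScalarTower ℚ L K := inferInstance
    exact FiniteDimensional.right ℚ L K
  have hsub : ∀ φ : K →ₐ[L] ℂ, φ = f := by
    intro φ
    have h1 : (φ : K →+* ℂ) = σ := by
      apply h
      intro x hx
      exact (φ.commutes ⟨x, hx⟩).symm
    ext x
    exact congrArg (fun ρ : K →+* ℂ => ρ x) h1
  have h1 : Fintype.card (K →ₐ[L] ℂ) = finrank L K := AlgHom.card L K ℂ
  have h2 : Fintype.card (K →ₐ[L] ℂ) = 1 := Fintype.card_eq_one_iff.2 ⟨f, hsub⟩
  rw [h2] at h1
  have h3 := Subalgebra.bot_eq_top_iff_finrank_eq_one.2 h1.symm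
  rw [eq_top_iff]
  intro x _
  have h4 : x ∈ (⊥ : Subalgebra L K) := by
    rw [h3]
    exact Algebra.mem_top
  obtain ⟨y, rfl⟩ := Algebra.mem_bot.1 h4
  exact y.2

/-- One factor of a form in the closed orbit has coefficients in a number field of degree at most
`d`. -/
theorem one_row (d : ℕ) (hd : 3 ≤ d) (g g' : Matrix (Fin d) (Fin d) ℝ) (hg : g.det ≠ 0)
    (hg' : g'.det ≠ 0) (hcl : g' ∈ closure (H46.AF.Orb g))
    (K : Type) [Field K] [NumberField K] (w : Fin d → K) (hK : finrank ℚ K ≤ d)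
    (σ : K →+* ℝ) (s : ℝ) (i : Fin d) (hrow : ∀ j, g' i j = s * σ (w j))
    (ε : ℝ) (hε : 0 < ε) (hl : H46.AF.LowZ g ε) : H46.AF.Integral g := by
  have hs : s ≠ 0 := by
    rintro rfl
    apply hg'
    exact Matrix.det_eq_zero_of_row_eq_zero i fun j => by rw [hrow j, zero_mul]
  refine main d hd g g' hg hg' hcl K w hK {Complex.ofRealHom.comp σ} ?_ {i}
    (Set.singleton_nonempty i) ?_ ε hε hl
  · intro L _ hL
    apply single_embedding (Complex.ofRealHom.comp σ) L
    intro τ hτ
    exact hL _ τ hτ (Set.mem_singleton _)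
  · rw [Set.image_singleton, Set.image_singleton]
    have h1 : (fun j => (g' i j : ℂ)) = (s : ℂ) • fun j => (Complex.ofRealHom.comp σ) (w j) := by
      ext j
      rw [Pi.smul_apply, smul_eq_mul, hrow j, Complex.ofReal_mul]
      rfl
    rw [h1]
    exact Submodule.span_singleton_smul_eq (isUnit_iff_ne_zero.2 (by exact_mod_cast hs)) _

end H46.AB
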